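import Mathlib

/-!
# Recursively enumerable predicates as projections of primitive recursive relations
-/

set_option autoImplicit false

namespace Pool.Agent.R387.MD

/-- projections of primitive recursive relations -/
def Enum {α : Type} [Primcodable α] (p : α → Prop) : Prop :=
  ∃ f : α → ℕ → Bool, Primrec₂ f ∧ ∀ a, p a ↔ ∃ n, f a n = true

section

variable {α β : Type} [Primcodable α] [Primcodable β]

theorem Enum.iff {p q : α → Prop} (h : Enum p) (hpq : ∀ a, q a ↔ p a) : Enum q := by
  obtain ⟨f, hf, h⟩ := h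
  exact ⟨f, hf, fun a => (hpq a).trans (h a)⟩

theorem Enum.of_pred {p : α → Prop} (h : PrimrecPred p) : Enum p := by
  obtain ⟨hd, h⟩ := h
  exact ⟨fun a _ => decide (p a), h.comp Primrec.fst, fun a => by simp⟩

theorem Enum.comp {p : α → Prop} (h : Enum p) {g : β → α} (hg : Primrec g) :
    Enum fun b => p (g b) := by
  obtain ⟨f, hf, h⟩ := h
  exact ⟨fun b n => f (g b) n, hf.comp (hg.comp Primrec.fst) Primrec.snd, fun b => h (g b)⟩

theorem Enum.and {p q : α → Prop} (hp : Enum p) (hq : Enum q) : Enum fun a => p a ∧ q a := by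
  obtain ⟨f, hf, hp⟩ := hp
  obtain ⟨g, hg, hq⟩ := hq
  refine ⟨fun a n => f a n.unpair.1 && g a n.unpair.2, ?_, fun a => ?_⟩
  · exact Primrec.and.comp
      (hf.comp Primrec.fst (Primrec.fst.comp (Primrec.unpair.comp Primrec.snd)))
      (hg.comp Primrec.fst (Primrec.snd.comp (Primrec.unpair.comp Primrec.snd)))
  · change (p a ∧ q a) ↔ ∃ n, (f a (Nat.unpair n).1 && g a (Nat.unpair n).2) = true
    rw [hp, hq]
    constructor
    · rintro ⟨⟨m, hm⟩, ⟨k, hk⟩⟩
      exact ⟨Nat.pair m k, by simp [hm, hk]⟩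
    · rintro ⟨n, hn⟩
      rw [Bool.and_eq_true] at hn
      exact ⟨⟨_, hn.1⟩, ⟨_, hn.2⟩⟩

theorem Enum.or {p q : α → Prop} (hp : Enum p) (hq : Enum q) : Enum fun a => p a ∨ q a := by
  obtain ⟨f, hf, hp⟩ := hp
  obtain ⟨g, hg, hq⟩ := hq
  refine ⟨fun a n => f a n || g a n, Primrec.or.comp hf hg, fun a => ?_⟩
  change (p a ∨ q a) ↔ ∃ n, (f a n || g a n) = true
  rw [hp, hq]
  constructor
  · rintro (⟨m, hm⟩ | ⟨m, hm⟩)
    · exact ⟨m, by simp [hm]⟩
    · exact ⟨m, by simp [hm]⟩
  · rintro ⟨n, hn⟩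
    rw [Bool.or_eq_true] at hn
    rcases hn with h | h
    · exact Or.inl ⟨n, h⟩
    · exact Or.inr ⟨n, h⟩

theorem Enum.ex {p : α → β → Prop} (h : Enum fun q : α × β => p q.1 q.2) :
    Enum fun a => ∃ b, p a b := by
  obtain ⟨f, hf, h⟩ := h
  refine ⟨fun a n => Option.casesOn (Encodable.decode (α := β) n.unpair.1) false
    (fun b => f (a, b) n.unpair.2), ?_, fun a => ?_⟩
  · refine Primrec.option_casesOn (Primrec.decode.comp
      (Primrec.fst.comp (Primrec.unpair.comp Primrec.snd))) (Primrec.const false) ?_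
    exact hf.comp (Primrec.pair (Primrec.fst.comp Primrec.fst) Primrec.snd)
      (Primrec.snd.comp (Primrec.unpair.comp (Primrec.snd.comp Primrec.fst)))
  · constructor
    · rintro ⟨b, hb⟩
      obtain ⟨m, hm⟩ := (h (a, b)).1 hb
      refine ⟨Nat.pair (Encodable.encode b) m, ?_⟩
      simp [hm]
    · rintro ⟨n, hn⟩
      revert hn
      cases hd : Encodable.decode (α := β) n.unpair.1 with
      | none => intro hn; simp [hd] at hn
      | some b =>
        intro hn
        refine ⟨b, (h (a, b)).2 ⟨n.unpair.2, ?_⟩⟩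
        simpa [hd] using hn

theorem Enum.allFin {k : ℕ} {p : Fin k → α → Prop} (h : ∀ i, Enum (p i)) :
    Enum fun a => ∀ i, p i a := by
  induction k with
  | zero => exact ⟨fun _ _ => true, Primrec.const true, fun a => ⟨fun _ => ⟨0, rfl⟩, fun _ i => i.elim0⟩⟩
  | succ k ih =>
    exact ((h 0).and (ih fun i => h i.succ)).iff fun a => Fin.forall_fin_succ

theorem Enum.allList {p : β → α → Prop} (h : Enum fun q : β × α => p q.1 q.2) :
    Enum fun q : List β × α => ∀ b ∈ q.1, p b q.2 := by
  obtain ⟨f, hf, h⟩ := h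
  -- the bounded search
  have h1 : PrimrecRel fun (m : ℕ) (q : β × α) => f q m = true :=
    Primrec.eq.comp (hf.comp Primrec.snd Primrec.fst) (Primrec.const true)
  have h2 : PrimrecRel fun (b : β) (q : α × ℕ) =>
      ∃ m ∈ List.range q.2, f (b, q.1) m = true :=
    h1.exists_mem_list.comp (Primrec.list_range.comp (Primrec.snd.comp Primrec.snd))
      (Primrec.pair Primrec.fst (Primrec.fst.comp Primrec.snd))
  have h3 := h2.forall_mem_list
  have h4 : Enum fun q : (List β × α) × ℕ =>
      ∀ b ∈ q.1.1, ∃ m ∈ List.range q.2, f (b, q.1.2) m = true :=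
    Enum.of_pred (h3.comp (Primrec.fst.comp Primrec.fst)
      (Primrec.pair (Primrec.snd.comp Primrec.fst) Primrec.snd))
  refine (Enum.ex (p := fun (q : List β × α) (n : ℕ) =>
    ∀ b ∈ q.1, ∃ m ∈ List.range n, f (b, q.2) m = true) h4).iff fun q => ?_
  constructor
  · intro hq
    obtain ⟨l, a⟩ := q
    simp only at hq ⊢
    clear h1 h2 h3 h4
    induction l with
    | nil => exact ⟨0, by simp⟩
    | cons b l ih =>
      obtain ⟨n, hn⟩ := ih fun c hc => hq c (List.mem_cons_of_mem _ hc)
      obtain ⟨m, hm⟩ := (h (b, a)).1 (hq b List.mem_cons_self)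
      refine ⟨max n (m + 1), fun c hc => ?_⟩
      rcases List.mem_cons.1 hc with rfl | hc
      · exact ⟨m, List.mem_range.2 (by omega), hm⟩
      · obtain ⟨m', h1, h2⟩ := hn c hc
        exact ⟨m', List.mem_range.2 (by have := List.mem_range.1 h1; omega), h2⟩
  · rintro ⟨n, hn⟩ b hb
    obtain ⟨m, -, hm⟩ := hn b hb
    exact (h (b, q.2)).2 ⟨m, hm⟩

theorem Enum.re {p : α → Prop} (h : Enum p) : REPred p := by
  obtain ⟨f, hf, h⟩ := h
  refine ((Partrec.rfind (p := fun a n => (Part.some (f a n) : Part Bool))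
    hf.to_comp.partrec₂).dom_re).of_eq ?_
  intro z
  rw [h]
  refine Iff.trans (Nat.rfind_dom (p := fun s => (Part.some (f z s) : Part Bool))) ?_
  constructor
  · rintro ⟨s, hs, _⟩
    rw [Part.mem_some_iff] at hs
    exact ⟨s, hs.symm⟩
  · rintro ⟨s, hs⟩
    exact ⟨s, by rw [hs]; exact Part.mem_some _, fun {m} _ => trivial⟩

theorem Enum.computable {p : α → Prop} (h1 : Enum p) (h2 : Enum fun a => ¬ p a) :
    ComputablePred p :=
  ComputablePred.computable_iff_re_compl_re'.2 ⟨h1.re, h2.re⟩

end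

/-- words -/
abbrev W (n : ℕ) := List (Fin n × Bool)

/-- one step of the free reduction -/
def redStep {n : ℕ} (x : Fin n × Bool) (ih : W n) : W n :=
  List.casesOn ih [x] fun hd tl => if x.1 = hd.1 ∧ x.2 = not hd.2 then tl else x :: hd :: tl

theorem reduce_eq_foldr {n : ℕ} (l : W n) :
    FreeGroup.reduce l = l.foldr (fun b s => redStep b s) [] := by
  induction l with
  | nil => rfl
  | cons x l ih =>
    rw [List.foldr_cons, ← ih]
    rfl

theorem primrec_redStep (n : ℕ) : Primrec₂ (redStep (n := n)) := by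
  unfold redStep
  refine Primrec.list_casesOn (f := fun p : (Fin n × Bool) × W n => p.2)
    (g := fun p => [p.1]) (h := fun (p : (Fin n × Bool) × W n) (q : (Fin n × Bool) × W n) =>
      if p.1.1 = q.1.1 ∧ p.1.2 = not q.1.2 then q.2 else p.1 :: q.1 :: q.2) Primrec.snd ?_ ?_
  · exact Primrec.list_cons.comp Primrec.fst (Primrec.const [])
  · refine Primrec.ite ?_ ?_ ?_
    · refine PrimrecPred.and ?_ ?_
      · exact Primrec.eq.comp (Primrec.fst.comp (Primrec.fst.comp Primrec.fst))
          (Primrec.fst.comp (Primrec.fst.comp Primrec.snd))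
      · exact Primrec.eq.comp (Primrec.snd.comp (Primrec.fst.comp Primrec.fst))
          (Primrec.not.comp (Primrec.snd.comp (Primrec.fst.comp Primrec.snd)))
    · exact Primrec.snd.comp Primrec.snd
    · exact Primrec.list_cons.comp (Primrec.fst.comp Primrec.fst)
        (Primrec.list_cons.comp (Primrec.fst.comp Primrec.snd) (Primrec.snd.comp Primrec.snd))

theorem primrec_reduce (n : ℕ) : Primrec (FreeGroup.reduce : W n → W n) := by
  refine (Primrec.list_foldr (f := fun l : W n => l) (g := fun _ => ([] : W n))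
    (h := fun _ p => redStep p.1 p.2) Primrec.id (Primrec.const []) ?_).of_eq
      (fun l => (reduce_eq_foldr l).symm)
  exact (primrec_redStep n).comp (Primrec.fst.comp Primrec.snd) (Primrec.snd.comp Primrec.snd)

theorem primrec_invRev (n : ℕ) : Primrec (FreeGroup.invRev : W n → W n) := by
  unfold FreeGroup.invRev
  refine Primrec.list_reverse.comp (Primrec.list_map Primrec.id ?_)
  exact Primrec.pair (Primrec.fst.comp Primrec.snd) (Primrec.not.comp (Primrec.snd.comp Primrec.snd))

/-- powers of a word -/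
def powW {n : ℕ} (w : W n) (j : ℕ) : W n := (List.range j).flatMap (fun _ => w)

theorem primrec_powW {n : ℕ} : Primrec₂ (powW (n := n)) :=
  Primrec.list_flatMap (Primrec.list_range.comp Primrec.snd) (Primrec.fst.comp Primrec.fst)

end Pool.Agent.R387.MD
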