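import Pool.Agent.R387.MD.Enum
import Pool.Agent.R387.FM.Simple

/-!
# Decision problems for finitely presented groups of types (3), (4), (6)
-/

set_option autoImplicit false

namespace Pool.Agent.R387.MD

universe u

variable {G : Type u} [Group G] {n : ℕ} (φ : FreeGroup (Fin n) →* G)

/-- the element represented by a word -/
def el (w : W n) : G := φ (FreeGroup.mk w)

theorem el_nil : el φ [] = 1 := map_one φ

theorem el_app (u v : W n) : el φ (u ++ v) = el φ u * el φ v := by
  unfold el
  rw [← FreeGroup.mul_mk, _root_.map_mul]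

theorem el_inv (u : W n) : el φ (FreeGroup.invRev u) = (el φ u)⁻¹ := by
  unfold el
  rw [← FreeGroup.inv_mk, _root_.map_inv]

theorem el_pow (w : W n) (k : ℕ) : el φ (powW w k) = el φ w ^ k := by
  induction k with
  | zero => rw [pow_zero]; exact el_nil φ
  | succ k ih =>
    unfold powW at ih ⊢
    rw [List.range_succ, List.flatMap_append, el_app, ih, pow_succ]
    congr 1
    change el φ (w ++ []) = el φ w
    rw [List.append_nil]

theorem el_surj (hφ : Function.Surjective φ) (g : G) : ∃ w : W n, el φ w = g := by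
  obtain ⟨x, rfl⟩ := hφ g
  exact ⟨x.toWord, by unfold el; rw [FreeGroup.mk_toWord]⟩

/-- certificates for elements of a normal closure -/
def cw (L : List (W n)) (c : List (W n × ℕ)) : W n :=
  c.flatMap fun p => p.1 ++ (L.getD p.2 [] ++ FreeGroup.invRev p.1)

theorem primrec_cw : Primrec₂ (cw (n := n)) := by
  unfold cw
  refine Primrec.list_flatMap Primrec.snd ?_
  have h1 : Primrec (fun q : (List (W n) × List (W n × ℕ)) × (W n × ℕ) => q.2.1) :=
    Primrec.fst.comp Primrec.snd
  have h2 : Primrec (fun q : (List (W n) × List (W n × ℕ)) × (W n × ℕ) =>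
      q.1.1.getD q.2.2 []) :=
    (Primrec.list_getD (α := W n) []).comp (Primrec.fst.comp Primrec.fst)
      (Primrec.snd.comp Primrec.snd)
  exact Primrec.list_append.comp h1 (Primrec.list_append.comp h2 ((primrec_invRev n).comp h1))

theorem cw_append (L : List (W n)) (c d : List (W n × ℕ)) :
    cw L (c ++ d) = cw L c ++ cw L d := by
  unfold cw
  rw [List.flatMap_append]

theorem el_cw_cons (L : List (W n)) (p : W n × ℕ) (c : List (W n × ℕ)) :
    el φ (cw L (p :: c)) = el φ p.1 * el φ (L.getD p.2 []) * (el φ p.1)⁻¹ * el φ (cw L c) := by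
  have : cw L (p :: c) = (p.1 ++ (L.getD p.2 [] ++ FreeGroup.invRev p.1)) ++ cw L c := rfl
  rw [this, el_app, el_app, el_app, el_inv]
  group

/-- Elements of the normal closure of a finite set, closed under inverses, given by words. -/
theorem mem_ncl_iff (hφ : Function.Surjective φ) (L : List (W n)) (S : Set G)
    (h1 : ∀ i, el φ (L.getD i []) ∈ Subgroup.normalClosure S)
    (h2 : ∀ s ∈ S, (∃ i, el φ (L.getD i []) = s) ∧ ∃ i, el φ (L.getD i []) = s⁻¹) (x : G) :
    x ∈ Subgroup.normalClosure S ↔ ∃ c, el φ (cw L c) = x := by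
  constructor
  · intro hx
    have key : ∀ y ∈ Group.conjugatesOfSet S, (∃ c, el φ (cw L c) = y) ∧
        ∃ c, el φ (cw L c) = y⁻¹ := by
      intro y hy
      obtain ⟨s, hs, hc⟩ := Group.mem_conjugatesOfSet_iff.1 hy
      obtain ⟨g, rfl⟩ := isConj_iff.1 hc
      obtain ⟨w, rfl⟩ := el_surj φ hφ g
      obtain ⟨⟨i, hi⟩, ⟨j, hj⟩⟩ := h2 s hs
      refine ⟨⟨[(w, i)], ?_⟩, ⟨[(w, j)], ?_⟩⟩
      · rw [el_cw_cons, hi]
        change _ * el φ [] = _
        rw [el_nil, mul_one]
      · rw [el_cw_cons, hj]
        change _ * el φ [] = _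
        rw [el_nil, mul_one]
        group
    unfold Subgroup.normalClosure at hx
    induction hx using Subgroup.closure_induction'' with
    | mem y hy => exact (key y hy).1
    | inv_mem y hy => exact (key y hy).2
    | one => exact ⟨[], el_nil φ⟩
    | mul y z _ _ hy hz =>
      obtain ⟨c, hc⟩ := hy
      obtain ⟨d, hd⟩ := hz
      exact ⟨c ++ d, by rw [cw_append, el_app, hc, hd]⟩
  · rintro ⟨c, rfl⟩
    induction c with
    | nil => rw [show cw L ([] : List (W n × ℕ)) = [] from rfl, el_nil]; exact Subgroup.one_mem _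
    | cons p c ih =>
      rw [el_cw_cons]
      exact Subgroup.mul_mem _ (Subgroup.normalClosure_normal.conj_mem _ (h1 _) _) ih

/-- the word problem of a finitely presented group is recursively enumerable -/
theorem wp_enum (hR : φ.ker.IsFinitelyNormallyGenerated) : Enum fun w : W n => el φ w = 1 := by
  obtain ⟨S, hS, hSR⟩ := hR
  let L1 : List (W n) := hS.toFinset.toList.map FreeGroup.toWord
  let L : List (W n) := L1 ++ L1.map FreeGroup.invRev
  let ψ : FreeGroup (Fin n) →* FreeGroup (Fin n) := MonoidHom.id _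
  have hmk : ∀ w : W n, el ψ w = FreeGroup.mk w := fun w => rfl
  have hL1 : ∀ w ∈ L1, FreeGroup.mk w ∈ S := by
    intro w hw
    obtain ⟨s, hs, rfl⟩ := List.mem_map.1 hw
    rw [FreeGroup.mk_toWord]
    simpa using hs
  have hL : ∀ w ∈ L, FreeGroup.mk w ∈ Subgroup.normalClosure S := by
    intro w hw
    rcases List.mem_append.1 hw with h | h
    · exact Subgroup.subset_normalClosure (hL1 w h)
    · obtain ⟨v, hv, rfl⟩ := List.mem_map.1 h
      rw [← FreeGroup.inv_mk]
      exact Subgroup.inv_mem _ (Subgroup.subset_normalClosure (hL1 v hv))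
  have h1 : ∀ i, el ψ (L.getD i []) ∈ Subgroup.normalClosure S := by
    intro i
    rw [hmk]
    rcases lt_or_ge i L.length with h | h
    · rw [List.getD_eq_getElem _ _ h]
      exact hL _ (List.getElem_mem h)
    · rw [List.getD_eq_default _ _ h]
      exact Subgroup.one_mem _
  have hidx : ∀ w ∈ L, ∃ i, L.getD i [] = w := by
    intro w hw
    obtain ⟨i, hi, hi'⟩ := List.mem_iff_getElem.1 hw
    exact ⟨i, by rw [List.getD_eq_getElem _ _ hi, hi']⟩
  have h2 : ∀ s ∈ S, (∃ i, el ψ (L.getD i []) = s) ∧ ∃ i, el ψ (L.getD i []) = s⁻¹ := by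
    intro s hs
    have hs1 : s.toWord ∈ L1 := List.mem_map.2 ⟨s, by simpa using hs, rfl⟩
    obtain ⟨i, hi⟩ := hidx s.toWord (List.mem_append_left _ hs1)
    obtain ⟨j, hj⟩ := hidx (FreeGroup.invRev s.toWord)
      (List.mem_append_right _ (List.mem_map_of_mem hs1))
    refine ⟨⟨i, ?_⟩, ⟨j, ?_⟩⟩
    · rw [hmk, hi, FreeGroup.mk_toWord]
    · rw [hmk, hj, ← FreeGroup.inv_mk, FreeGroup.mk_toWord]
  have h3 : Enum fun q : W n × List (W n × ℕ) =>
      FreeGroup.reduce (cw L q.2) = FreeGroup.reduce q.1 :=
    Enum.of_pred (Primrec.eq.comp ((primrec_reduce n).comp (primrec_cw.comp (Primrec.const L)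
      Primrec.snd)) ((primrec_reduce n).comp Primrec.fst))
  refine (Enum.ex (p := fun (w : W n) (c : List (W n × ℕ)) =>
    FreeGroup.reduce (cw L c) = FreeGroup.reduce w) h3).iff fun w => ?_
  have h4 := mem_ncl_iff ψ Function.surjective_id L S h1 h2 (FreeGroup.mk w)
  rw [hSR, MonoidHom.mem_ker] at h4
  rw [show el φ w = φ (FreeGroup.mk w) from rfl, h4]
  constructor
  · rintro ⟨c, hc⟩
    exact ⟨c, FreeGroup.reduce.sound hc⟩
  · rintro ⟨c, hc⟩
    exact ⟨c, FreeGroup.reduce.exact hc⟩

variable {φ}

/-- equality is recursively enumerable -/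
theorem eq_enum (h : Enum fun w : W n => el φ w = 1) :
    Enum fun q : W n × W n => el φ q.1 = el φ q.2 := by
  have h1 : Primrec fun q : W n × W n => q.1 ++ FreeGroup.invRev q.2 :=
    Primrec.list_append.comp Primrec.fst ((primrec_invRev n).comp Primrec.snd)
  refine (h.comp h1).iff fun q => ?_
  rw [el_app, el_inv, mul_inv_eq_one]

/-- membership in the normal closure of one element is recursively enumerable -/
theorem ncl_enum (hφ : Function.Surjective φ) (h : Enum fun w : W n => el φ w = 1) :
    Enum fun q : W n × W n => el φ q.1 ∈ Subgroup.normalClosure {el φ q.2} := by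
  have h1 : Primrec fun q : (W n × W n) × List (W n × ℕ) =>
      (cw [q.1.2, FreeGroup.invRev q.1.2] q.2, q.1.1) :=
    Primrec.pair (primrec_cw.comp (Primrec.list_cons.comp (Primrec.snd.comp Primrec.fst)
      (Primrec.list_cons.comp ((primrec_invRev n).comp (Primrec.snd.comp Primrec.fst))
        (Primrec.const []))) Primrec.snd) (Primrec.fst.comp Primrec.fst)
  refine (Enum.ex (p := fun (q : W n × W n) (c : List (W n × ℕ)) =>
    el φ (cw [q.2, FreeGroup.invRev q.2] c) = el φ q.1) ((eq_enum h).comp h1)).iff fun q => ?_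
  refine mem_ncl_iff φ hφ [q.2, FreeGroup.invRev q.2] {el φ q.2} ?_ ?_ (el φ q.1)
  · intro i
    match i with
    | 0 => exact Subgroup.subset_normalClosure rfl
    | 1 =>
      change el φ (FreeGroup.invRev q.2) ∈ _
      rw [el_inv]
      exact Subgroup.inv_mem _ (Subgroup.subset_normalClosure rfl)
    | (k + 2) =>
      change el φ [] ∈ _
      rw [el_nil]
      exact Subgroup.one_mem _
  · intro s hs
    rw [Set.mem_singleton_iff] at hs
    rw [hs]
    exact ⟨⟨0, rfl⟩, ⟨1, el_inv φ q.2⟩⟩

/-- conjugacy is recursively enumerable -/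
theorem conj_enum (hφ : Function.Surjective φ) (h : Enum fun w : W n => el φ w = 1) :
    Enum fun q : W n × W n => IsConj (el φ q.1) (el φ q.2) := by
  have h1 : Primrec fun q : (W n × W n) × W n =>
      (q.2 ++ (q.1.1 ++ FreeGroup.invRev q.2), q.1.2) :=
    Primrec.pair (Primrec.list_append.comp Primrec.snd (Primrec.list_append.comp
      (Primrec.fst.comp Primrec.fst) ((primrec_invRev n).comp Primrec.snd)))
      (Primrec.snd.comp Primrec.fst)
  refine (Enum.ex (p := fun (q : W n × W n) (u : W n) =>
    el φ (u ++ (q.1 ++ FreeGroup.invRev u)) = el φ q.2) ((eq_enum h).comp h1)).iff fun q => ?_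
  rw [isConj_iff]
  constructor
  · rintro ⟨c, hc⟩
    obtain ⟨u, rfl⟩ := el_surj φ hφ c
    exact ⟨u, by rw [el_app, el_app, el_inv, ← mul_assoc]; exact hc⟩
  · rintro ⟨u, hu⟩
    exact ⟨el φ u, by rw [el_app, el_app, el_inv, ← mul_assoc] at hu; exact hu⟩

/-- groups with finitely many conjugacy classes -/
theorem conj_dec [hfin : Finite (ConjClasses G)] (hφ : Function.Surjective φ)
    (h : Enum fun w : W n => el φ w = 1) :
    ComputablePred fun q : W n × W n => IsConj (el φ q.1) (el φ q.2) := by
  obtain ⟨k, ⟨e⟩⟩ := Finite.exists_equiv_fin (ConjClasses G)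
  have hr : ∀ i : Fin k, ∃ w : W n, ConjClasses.mk (el φ w) = e.symm i := by
    intro i
    obtain ⟨g, hg⟩ := ConjClasses.exists_rep (e.symm i)
    obtain ⟨w, hw⟩ := el_surj φ hφ g
    exact ⟨w, by rw [hw, hg]⟩
  choose r hr using hr
  have hc := conj_enum hφ h
  refine Enum.computable hc ?_
  have h1 : Enum fun q : (W n × W n) × (Fin k × Fin k) => q.2.1 ≠ q.2.2 ∧
      IsConj (el φ q.1.1) (el φ (r q.2.1)) ∧ IsConj (el φ q.1.2) (el φ (r q.2.2)) := by
    refine Enum.and (Enum.of_pred ?_) (Enum.and ?_ ?_)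
    · exact (Primrec.eq.comp (Primrec.fst.comp Primrec.snd) (Primrec.snd.comp Primrec.snd)).not
    · exact hc.comp (g := fun q : (W n × W n) × (Fin k × Fin k) => (q.1.1, r q.2.1))
        (Primrec.pair (Primrec.fst.comp Primrec.fst)
          ((Primrec.dom_finite r).comp (Primrec.fst.comp Primrec.snd)))
    · exact hc.comp (g := fun q : (W n × W n) × (Fin k × Fin k) => (q.1.2, r q.2.2))
        (Primrec.pair (Primrec.snd.comp Primrec.fst)
          ((Primrec.dom_finite r).comp (Primrec.snd.comp Primrec.snd)))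
  refine (Enum.ex (p := fun (q : W n × W n) (ij : Fin k × Fin k) => ij.1 ≠ ij.2 ∧
      IsConj (el φ q.1) (el φ (r ij.1)) ∧ IsConj (el φ q.2) (el φ (r ij.2))) h1).iff fun q => ?_
  constructor
  · intro hq
    refine ⟨(e (ConjClasses.mk (el φ q.1)), e (ConjClasses.mk (el φ q.2))), ?_, ?_, ?_⟩
    · intro he
      exact hq (ConjClasses.mk_eq_mk_iff_isConj.1 (e.injective he))
    · rw [← ConjClasses.mk_eq_mk_iff_isConj, hr, e.symm_apply_apply]
    · rw [← ConjClasses.mk_eq_mk_iff_isConj, hr, e.symm_apply_apply]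
  · rintro ⟨⟨i, j⟩, hij, hi, hj⟩ hq
    apply hij
    apply e.symm.injective
    change e.symm i = e.symm j
    rw [← hr i, ← hr j, ConjClasses.mk_eq_mk_iff_isConj]
    exact hi.symm.trans (hq.trans hj)

theorem wp_of_conj (h : ComputablePred fun q : W n × W n => IsConj (el φ q.1) (el φ q.2)) :
    ComputablePred fun w : W n => el φ w = 1 := by
  refine ComputablePred.computable_of_manyOneReducible
    (q := fun q : W n × W n => IsConj (el φ q.1) (el φ q.2))
    ⟨fun w => (w, []), (Primrec.pair Primrec.id (Primrec.const [])).to_comp, fun w => ?_⟩ h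
  change _ ↔ IsConj (el φ w) (el φ [])
  rw [el_nil, isConj_one_left]

section type3

variable [Infinite G]

/-- the negation of the word problem for groups whose proper subgroups are cyclic -/
theorem ne_enum (hnc : ¬ IsCyclic G) (hcyc : ∀ H : Subgroup G, H ≠ ⊤ → IsCyclic H)
    (hφ : Function.Surjective φ) (hct : Subgroup.center G ≠ ⊤)
    (h : Enum fun w : W n => el φ w = 1) : Enum fun w : W n => ¬ el φ w = 1 := by
  obtain ⟨z, hz⟩ : ∃ z : G, Subgroup.zpowers z = Subgroup.center G :=
    (Subgroup.isCyclic_iff_exists_zpowers_eq_top _).1 (hcyc _ hct)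
  obtain ⟨zw, hzw⟩ := el_surj φ hφ z
  have h1 : Enum fun w : W n => ∀ i : Fin n,
      el φ [(i, true)] ∈ Subgroup.normalClosure {el φ w} := by
    refine Enum.allFin fun i => ?_
    exact (ncl_enum hφ h).comp (g := fun w : W n => ([(i, true)], w))
      (Primrec.pair (Primrec.const _) Primrec.id)
  have h2 : Enum fun w : W n => ∃ k : ℕ, ¬ (orderOf z ∣ k) ∧
      (el φ w = el φ (powW zw k) ∨ el φ w = el φ (FreeGroup.invRev (powW zw k))) := by
    refine Enum.ex (p := fun (w : W n) (k : ℕ) => ¬ (orderOf z ∣ k) ∧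
      (el φ w = el φ (powW zw k) ∨ el φ w = el φ (FreeGroup.invRev (powW zw k)))) ?_
    refine Enum.and (Enum.of_pred ?_) (Enum.or ?_ ?_)
    · refine PrimrecPred.not ?_
      have : PrimrecPred fun q : W n × ℕ => q.2 % orderOf z = 0 :=
        Primrec.eq.comp (Primrec.nat_mod.comp Primrec.snd (Primrec.const _)) (Primrec.const 0)
      exact this.of_eq fun q => (Nat.dvd_iff_mod_eq_zero).symm
    · exact (eq_enum h).comp (g := fun q : W n × ℕ => (q.1, powW zw q.2))
        (Primrec.pair Primrec.fst (primrec_powW.comp (Primrec.const zw) Primrec.snd))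
    · exact (eq_enum h).comp (g := fun q : W n × ℕ => (q.1, FreeGroup.invRev (powW zw q.2)))
        (Primrec.pair Primrec.fst ((primrec_invRev n).comp
          (primrec_powW.comp (Primrec.const zw) Primrec.snd)))
  refine (h1.or h2).iff fun w => ?_
  constructor
  · intro hw
    by_cases hN : Subgroup.normalClosure {el φ w} = ⊤
    · left
      intro i
      rw [hN]; trivial
    · right
      have h3 : el φ w ∈ Subgroup.center G :=
        R387.FM.central_of_normal hnc hcyc _ Subgroup.normalClosure_normal hN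
          (Subgroup.subset_normalClosure rfl)
      rw [← hz] at h3
      obtain ⟨a, ha⟩ := h3
      have ha' : z ^ a = el φ w := ha
      refine ⟨a.natAbs, ?_, ?_⟩
      · intro hd
        apply hw
        rw [← ha']
        exact orderOf_dvd_iff_zpow_eq_one.1 (Int.natCast_dvd.2 hd)
      · rw [el_inv, el_pow, hzw, ← ha']
        rcases Int.natAbs_eq a with h4 | h4
        · left
          rw [← zpow_natCast, ← h4]
        · right
          rw [← zpow_natCast, ← zpow_neg, ← h4]
  · rintro (hall | ⟨k, hk, hk'⟩) hw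
    · have h3 : Subgroup.normalClosure {el φ w} = ⊥ := by
        rw [hw]
        exact Subgroup.normalClosure_eq_bot_iff.2 (by simp)
      have h4 : φ.range = ⊥ := by
        rw [MonoidHom.range_eq_map, ← FreeGroup.closure_range_of, MonoidHom.map_closure,
          Subgroup.closure_eq_bot_iff]
        rintro _ ⟨_, ⟨i, rfl⟩, rfl⟩
        have := hall i
        rw [h3, Subgroup.mem_bot] at this
        exact this
      have h5 : (⊤ : Subgroup G) = ⊥ := by
        rw [← h4]
        exact (MonoidHom.range_eq_top.2 hφ).symm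
      have h6 : ∀ g : G, g = 1 := fun g => by
        have : g ∈ (⊤ : Subgroup G) := trivial
        rw [h5, Subgroup.mem_bot] at this
        exact this
      have : Subsingleton G := ⟨fun a b => (h6 a).trans (h6 b).symm⟩
      exact not_finite G
    · apply hk
      rw [el_inv, el_pow, hzw, hw] at hk'
      apply orderOf_dvd_of_pow_eq_one
      rcases hk' with h3 | h3
      · exact h3.symm
      · exact inv_eq_one.1 h3.symm

end type3

end Pool.Agent.R387.MD
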