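import Pool.Agent.R387.MD.Groups

/-!
# Generation and membership problems
-/

set_option autoImplicit false

namespace Pool.Agent.R387.MD

universe u

variable {G : Type u} [Group G] {n : ℕ} {φ : FreeGroup (Fin n) →* G}

/-- the subgroup generated by the elements given by a list of words -/
def sg (φ : FreeGroup (Fin n) →* G) (l : List (W n)) : Subgroup G :=
  Subgroup.closure {g | ∃ u ∈ l, el φ u = g}

/-- certificates for membership in a subgroup -/
def pw (l : List (W n)) (c : List (ℕ × Bool)) : W n :=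
  c.flatMap fun p => bif p.2 then l.getD p.1 [] else FreeGroup.invRev (l.getD p.1 [])

theorem primrec_pw : Primrec₂ (pw (n := n)) := by
  unfold pw
  refine Primrec.list_flatMap Primrec.snd ?_
  have h2 : Primrec (fun q : (List (W n) × List (ℕ × Bool)) × (ℕ × Bool) =>
      q.1.1.getD q.2.1 []) :=
    (Primrec.list_getD (α := W n) []).comp (Primrec.fst.comp Primrec.fst)
      (Primrec.fst.comp Primrec.snd)
  exact Primrec.cond (Primrec.snd.comp Primrec.snd) h2 ((primrec_invRev n).comp h2)

theorem mem_sg_iff (l : List (W n)) (g : G) : g ∈ sg φ l ↔ ∃ c, el φ (pw l c) = g := by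
  have happ : ∀ c d : List (ℕ × Bool), pw l (c ++ d) = pw l c ++ pw l d := by
    intro c d
    unfold pw
    rw [List.flatMap_append]
  have hidx : ∀ w ∈ l, ∃ i, l.getD i [] = w := by
    intro w hw
    obtain ⟨i, hi, hi'⟩ := List.mem_iff_getElem.1 hw
    exact ⟨i, by rw [List.getD_eq_getElem _ _ hi, hi']⟩
  constructor
  · intro hg
    unfold sg at hg
    induction hg using Subgroup.closure_induction'' with
    | mem y hy =>
      obtain ⟨u, hu, rfl⟩ := hy
      obtain ⟨i, hi⟩ := hidx u hu
      refine ⟨[(i, true)], ?_⟩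
      change el φ (l.getD i [] ++ []) = _
      rw [hi, List.append_nil]
    | inv_mem y hy =>
      obtain ⟨u, hu, rfl⟩ := hy
      obtain ⟨i, hi⟩ := hidx u hu
      refine ⟨[(i, false)], ?_⟩
      change el φ (FreeGroup.invRev (l.getD i []) ++ []) = _
      rw [hi, List.append_nil, el_inv]
    | one => exact ⟨[], el_nil φ⟩
    | mul y z _ _ hy hz =>
      obtain ⟨c, hc⟩ := hy
      obtain ⟨d, hd⟩ := hz
      exact ⟨c ++ d, by rw [happ, el_app, hc, hd]⟩
  · rintro ⟨c, rfl⟩
    have hm : ∀ i, el φ (l.getD i []) ∈ sg φ l := by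
      intro i
      rcases lt_or_ge i l.length with h | h
      · rw [List.getD_eq_getElem _ _ h]
        exact Subgroup.subset_closure ⟨_, List.getElem_mem h, rfl⟩
      · rw [List.getD_eq_default _ _ h, el_nil]
        exact Subgroup.one_mem _
    induction c with
    | nil => rw [show pw l [] = [] from rfl, el_nil]; exact Subgroup.one_mem _
    | cons p c ih =>
      obtain ⟨i, b⟩ := p
      have h0 : pw l ((i, b) :: c) =
          (bif b then l.getD i [] else FreeGroup.invRev (l.getD i [])) ++ pw l c := rfl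
      rw [h0, el_app]
      refine Subgroup.mul_mem _ ?_ ih
      cases b with
      | true => exact hm i
      | false =>
        change el φ (FreeGroup.invRev (l.getD i [])) ∈ _
        rw [el_inv]
        exact Subgroup.inv_mem _ (hm i)

/-- membership in finitely generated subgroups is recursively enumerable -/
theorem mem_enum (h : Enum fun w : W n => el φ w = 1) :
    Enum fun q : W n × List (W n) => el φ q.1 ∈ sg φ q.2 := by
  have h1 : Primrec fun q : (W n × List (W n)) × List (ℕ × Bool) => (pw q.1.2 q.2, q.1.1) :=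
    Primrec.pair (primrec_pw.comp (Primrec.snd.comp Primrec.fst) Primrec.snd)
      (Primrec.fst.comp Primrec.fst)
  exact (Enum.ex (p := fun (q : W n × List (W n)) (c : List (ℕ × Bool)) =>
    el φ (pw q.2 c) = el φ q.1) ((eq_enum h).comp h1)).iff fun q => mem_sg_iff q.2 _

theorem gen_top (hφ : Function.Surjective φ) {H : Subgroup G}
    (h : ∀ i : Fin n, el φ [(i, true)] ∈ H) : H = ⊤ := by
  rw [eq_top_iff, ← MonoidHom.range_eq_top.2 hφ, MonoidHom.range_eq_map,
    ← FreeGroup.closure_range_of, MonoidHom.map_closure, Subgroup.closure_le]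
  rintro _ ⟨_, ⟨i, rfl⟩, rfl⟩
  exact h i

/-- generating a finitely presented group is recursively enumerable -/
theorem gen_enum (hφ : Function.Surjective φ) (h : Enum fun w : W n => el φ w = 1) :
    Enum fun l : List (W n) => sg φ l = ⊤ := by
  have h1 : Enum fun l : List (W n) => ∀ i : Fin n, el φ [(i, true)] ∈ sg φ l :=
    Enum.allFin fun i => (mem_enum h).comp (g := fun l : List (W n) => ([(i, true)], l))
      (Primrec.pair (Primrec.const _) Primrec.id)
  refine h1.iff fun l => ⟨fun hl i => by rw [hl]; trivial, fun hl => gen_top hφ hl⟩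

/-- commuting is recursively enumerable -/
theorem comm_enum (h : Enum fun w : W n => el φ w = 1) :
    Enum fun q : W n × W n => Commute (el φ q.1) (el φ q.2) := by
  have h1 : Primrec fun q : W n × W n => (q.1 ++ q.2, q.2 ++ q.1) :=
    Primrec.pair (Primrec.list_append.comp Primrec.fst Primrec.snd)
      (Primrec.list_append.comp Primrec.snd Primrec.fst)
  refine ((eq_enum h).comp h1).iff fun q => ?_
  rw [el_app, el_app]
  rfl

theorem noncomm (hct : Subgroup.center G ≠ ⊤) : ¬ ∀ a b : G, a * b = b * a := by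
  intro h
  apply hct
  rw [eq_top_iff]
  intro x _
  rw [Subgroup.mem_center_iff]
  intro g
  exact h g x

theorem cyclic_comm {H : Subgroup G} (hc : IsCyclic H) {a b : G} (ha : a ∈ H) (hb : b ∈ H) :
    a * b = b * a := by
  obtain ⟨c, hc⟩ := hc
  obtain ⟨i, hi⟩ := hc ⟨a, ha⟩
  obtain ⟨j, hj⟩ := hc ⟨b, hb⟩
  have h1 : (c : G) ^ i = a := congrArg Subtype.val hi
  have h2 : (c : G) ^ j = b := congrArg Subtype.val hj
  rw [← h1, ← h2]
  exact ((Commute.refl (c : G)).zpow_zpow i j).eq

theorem closure_comm {S : Set G} (h : ∀ a ∈ S, ∀ b ∈ S, a * b = b * a) {a b : G}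
    (ha : a ∈ Subgroup.closure S) (hb : b ∈ Subgroup.closure S) : a * b = b * a := by
  induction ha, hb using Subgroup.closure_induction₂ with
  | mem x y hx hy => exact h x hx y hy
  | one_left x hx => rw [one_mul, mul_one]
  | one_right x hx => rw [one_mul, mul_one]
  | mul_left x y z hx hy hz h1 h2 => exact (Commute.mul_left h1 h2)
  | mul_right y z x hy hz hx h1 h2 => exact (Commute.mul_right h1 h2)
  | inv_left x y hx hy h1 => exact (Commute.inv_left h1)
  | inv_right x y hx hy h1 => exact (Commute.inv_right h1)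

/-- Failing to generate is recursively enumerable in groups all whose proper subgroups are
cyclic. -/
theorem not_gen_enum (hcyc : ∀ H : Subgroup G, H ≠ ⊤ → IsCyclic H)
    (hct : Subgroup.center G ≠ ⊤) (h : Enum fun w : W n => el φ w = 1) :
    Enum fun l : List (W n) => ¬ sg φ l = ⊤ := by
  have h1 : Enum fun q : List (W n) × W n => ∀ v ∈ q.1, Commute (el φ v) (el φ q.2) :=
    Enum.allList (p := fun (v u : W n) => Commute (el φ v) (el φ u)) (comm_enum h)
  have h2 : Enum fun q : W n × List (W n) => ∀ v ∈ q.2, Commute (el φ v) (el φ q.1) :=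
    h1.comp (g := fun q : W n × List (W n) => (q.2, q.1)) (Primrec.pair Primrec.snd Primrec.fst)
  have h3 : Enum fun q : List (W n) × List (W n) => ∀ u ∈ q.1, ∀ v ∈ q.2,
      Commute (el φ v) (el φ u) :=
    Enum.allList (p := fun (u : W n) (l : List (W n)) => ∀ v ∈ l, Commute (el φ v) (el φ u)) h2
  refine (h3.comp (g := fun l : List (W n) => (l, l)) (Primrec.pair Primrec.id Primrec.id)).iff
    fun l => ?_
  constructor
  · intro hl u hu v hv
    exact cyclic_comm (hcyc _ hl) (Subgroup.subset_closure ⟨v, hv, rfl⟩)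
      (Subgroup.subset_closure ⟨u, hu, rfl⟩)
  · intro hl htop
    apply noncomm hct
    intro a b
    have ha : a ∈ sg φ l := by rw [htop]; trivial
    have hb : b ∈ sg φ l := by rw [htop]; trivial
    refine closure_comm ?_ ha hb
    rintro _ ⟨v, hv, rfl⟩ _ ⟨u, hu, rfl⟩
    exact hl u hu v hv

/-- two words represent different elements -/
theorem neq_enum (h : Enum fun w : W n => ¬ el φ w = 1) :
    Enum fun q : W n × W n => ¬ el φ q.1 = el φ q.2 := by
  have h1 : Primrec fun q : W n × W n => q.1 ++ FreeGroup.invRev q.2 :=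
    Primrec.list_append.comp Primrec.fst ((primrec_invRev n).comp Primrec.snd)
  refine (h.comp h1).iff fun q => ?_
  rw [el_app, el_inv, mul_inv_eq_one]

/-- being a power is recursively enumerable -/
theorem pow_enum (h : Enum fun w : W n => el φ w = 1) :
    Enum fun q : W n × W n => el φ q.1 ∈ Subgroup.zpowers (el φ q.2) := by
  refine ((mem_enum h).comp (g := fun q : W n × W n => (q.1, [q.2]))
    (Primrec.pair Primrec.fst (Primrec.list_cons.comp Primrec.snd (Primrec.const [])))).iff
      fun q => ?_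
  have : sg φ [q.2] = Subgroup.zpowers (el φ q.2) := by
    rw [Subgroup.zpowers_eq_closure]
    unfold sg
    congr 1
    ext g
    simp [eq_comm]
  rw [this]

/-- all elements of a list are powers of a given one -/
theorem allpow_enum (h : Enum fun w : W n => el φ w = 1) :
    Enum fun q : List (W n) × W n => ∀ u ∈ q.1, el φ u ∈ Subgroup.zpowers (el φ q.2) :=
  Enum.allList (p := fun (u c : W n) => el φ u ∈ Subgroup.zpowers (el φ c)) (pow_enum h)

theorem sg_le {l : List (W n)} {c : W n}
    (hl : ∀ u ∈ l, el φ u ∈ Subgroup.zpowers (el φ c)) :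
    sg φ l ≤ Subgroup.zpowers (el φ c) := by
  refine (Subgroup.closure_le _).2 ?_
  rintro _ ⟨u, hu, rfl⟩
  exact hl u hu

theorem sg_gen (hcyc : ∀ H : Subgroup G, H ≠ ⊤ → IsCyclic H) (hφ : Function.Surjective φ)
    {l : List (W n)} (hl : sg φ l ≠ ⊤) : ∃ c : W n, sg φ l = Subgroup.zpowers (el φ c) := by
  obtain ⟨z, hz⟩ := (Subgroup.isCyclic_iff_exists_zpowers_eq_top _).1 (hcyc _ hl)
  obtain ⟨c, rfl⟩ := el_surj φ hφ z
  exact ⟨c, hz.symm⟩

/-- the membership problem in torsion groups all whose proper subgroups are cyclic -/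
theorem not_mem_enum_torsion (hcyc : ∀ H : Subgroup G, H ≠ ⊤ → IsCyclic H)
    (hφ : Function.Surjective φ) (htor : ∀ g : G, IsOfFinOrder g)
    (h : Enum fun w : W n => el φ w = 1) (h' : Enum fun w : W n => ¬ el φ w = 1) :
    Enum fun q : W n × List (W n) => ¬ el φ q.1 ∈ sg φ q.2 := by
  have h1 : Enum fun q : List ℕ × (W n × W n) => ∀ k ∈ q.1,
      ¬ el φ q.2.1 = el φ (powW q.2.2 k) := by
    refine Enum.allList (p := fun (k : ℕ) (r : W n × W n) =>
      ¬ el φ r.1 = el φ (powW r.2 k)) ?_
    exact (neq_enum h').comp (g := fun q : ℕ × (W n × W n) => (q.2.1, powW q.2.2 q.1))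
      (Primrec.pair (Primrec.fst.comp Primrec.snd)
        (primrec_powW.comp (Primrec.snd.comp Primrec.snd) Primrec.fst))
  have h2 : Enum fun q : (W n × List (W n)) × (W n × ℕ) => 0 < q.2.2 ∧
      el φ (powW q.2.1 q.2.2) = 1 ∧
      (∀ u ∈ q.1.2, el φ u ∈ Subgroup.zpowers (el φ q.2.1)) ∧
      ∀ k ∈ List.range q.2.2, ¬ el φ q.1.1 = el φ (powW q.2.1 k) := by
    refine Enum.and (Enum.of_pred ?_) (Enum.and ?_ (Enum.and ?_ ?_))
    · exact Primrec.nat_lt.comp (Primrec.const 0) (Primrec.snd.comp Primrec.snd)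
    · exact h.comp (g := fun q : (W n × List (W n)) × (W n × ℕ) => powW q.2.1 q.2.2)
        (primrec_powW.comp (Primrec.fst.comp Primrec.snd) (Primrec.snd.comp Primrec.snd))
    · exact (allpow_enum h).comp
        (g := fun q : (W n × List (W n)) × (W n × ℕ) => (q.1.2, q.2.1))
        (Primrec.pair (Primrec.snd.comp Primrec.fst) (Primrec.fst.comp Primrec.snd))
    · exact h1.comp
        (g := fun q : (W n × List (W n)) × (W n × ℕ) => (List.range q.2.2, (q.1.1, q.2.1)))
        (Primrec.pair (Primrec.list_range.comp (Primrec.snd.comp Primrec.snd))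
          (Primrec.pair (Primrec.fst.comp Primrec.fst) (Primrec.fst.comp Primrec.snd)))
  refine (Enum.ex (p := fun (q : W n × List (W n)) (c : W n × ℕ) => 0 < c.2 ∧
      el φ (powW c.1 c.2) = 1 ∧
      (∀ u ∈ q.2, el φ u ∈ Subgroup.zpowers (el φ c.1)) ∧
      ∀ k ∈ List.range c.2, ¬ el φ q.1 = el φ (powW c.1 k)) h2).iff fun q => ?_
  constructor
  · intro hq
    have hne : sg φ q.2 ≠ ⊤ := fun e => hq (by rw [e]; trivial)
    obtain ⟨c, hc⟩ := sg_gen hcyc hφ hne
    refine ⟨(c, orderOf (el φ c)), (htor _).orderOf_pos, ?_, ?_, ?_⟩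
    · rw [el_pow]
      exact pow_orderOf_eq_one _
    · intro u hu
      rw [← hc]
      exact Subgroup.subset_closure ⟨u, hu, rfl⟩
    · intro k _ hk
      apply hq
      rw [hc, hk, el_pow]
      exact Subgroup.npow_mem_zpowers _ _
  · rintro ⟨⟨c, m⟩, hm, hcm, hl, hk⟩ hmem
    obtain ⟨j, hj⟩ := sg_le hl hmem
    have hj' : (el φ c) ^ j = el φ q.1 := hj
    have hcm' : (el φ c) ^ m = 1 := by rw [← el_pow]; exact hcm
    have hm0 : (0 : ℤ) < m := by exact_mod_cast hm
    have h4 : (el φ c) ^ (j % (m : ℤ)) = el φ q.1 := by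
      have h5 := Int.emod_add_mul_ediv j m
      rw [← hj']
      conv_rhs => rw [← h5]
      rw [zpow_add, zpow_mul, zpow_natCast, hcm', one_zpow, mul_one]
    have h6 := Int.emod_nonneg j hm0.ne'
    have h7 := Int.emod_lt_of_pos j hm0
    refine hk (j % (m : ℤ)).toNat (List.mem_range.2 ?_) ?_
    · change _ < m
      omega
    · rw [el_pow, ← zpow_natCast, Int.toNat_of_nonneg h6]
      exact h4.symm

end Pool.Agent.R387.MD
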