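import Pool.Agent.R387.MD.Member

/-!
# Torsion-free groups; relations between the types
-/

set_option autoImplicit false

namespace Pool.Agent.R387.MD

universe u

variable {G : Type u} [Group G]

section free

variable {n : ℕ} {φ : FreeGroup (Fin n) →* G}

/-- being `±` a natural power is recursively enumerable -/
theorem pm_enum (h : Enum fun w : W n => el φ w = 1) :
    Enum fun q : W n × (W n × ℕ) => el φ q.1 = el φ q.2.1 ^ q.2.2 ∨
      el φ q.1 = (el φ q.2.1 ^ q.2.2)⁻¹ := by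
  have hp : Primrec fun q : W n × (W n × ℕ) => powW q.2.1 q.2.2 :=
    primrec_powW.comp (Primrec.fst.comp Primrec.snd) (Primrec.snd.comp Primrec.snd)
  refine (Enum.or ((eq_enum h).comp (g := fun q : W n × (W n × ℕ) => (q.1, powW q.2.1 q.2.2))
    (Primrec.pair Primrec.fst hp)) ((eq_enum h).comp
      (g := fun q : W n × (W n × ℕ) => (q.1, FreeGroup.invRev (powW q.2.1 q.2.2)))
        (Primrec.pair Primrec.fst ((primrec_invRev n).comp hp)))).iff fun q => ?_
  rw [el_inv, el_pow]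

/-- the membership problem in torsion-free groups all whose proper subgroups are cyclic -/
theorem not_mem_enum_free (hcyc : ∀ H : Subgroup G, H ≠ ⊤ → IsCyclic H)
    (hφ : Function.Surjective φ) (hfree : ∀ g : G, IsOfFinOrder g → g = 1)
    (hct : Subgroup.center G ≠ ⊤)
    (h : Enum fun w : W n => el φ w = 1) (h' : Enum fun w : W n => ¬ el φ w = 1) :
    Enum fun q : W n × List (W n) => ¬ el φ q.1 ∈ sg φ q.2 := by
  have h1 : Enum fun q : (W n × List (W n)) × W n =>
      ¬ Commute (el φ q.1.1) (el φ q.2) := by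
    refine ((neq_enum h').comp
      (g := fun q : (W n × List (W n)) × W n => (q.1.1 ++ q.2, q.2 ++ q.1.1)) ?_).iff fun q => ?_
    · exact Primrec.pair (Primrec.list_append.comp (Primrec.fst.comp Primrec.fst) Primrec.snd)
        (Primrec.list_append.comp Primrec.snd (Primrec.fst.comp Primrec.fst))
    · rw [el_app, el_app]
      rfl
  have h2 : Enum fun q : ((W n × List (W n)) × W n) × (W n × (ℕ × ℕ)) =>
      ¬ (q.2.2.2 ∣ q.2.2.1) ∧ ¬ el φ q.2.1 = 1 ∧
      (el φ q.1.1.1 = el φ q.2.1 ^ q.2.2.1 ∨ el φ q.1.1.1 = (el φ q.2.1 ^ q.2.2.1)⁻¹) ∧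
      (el φ q.1.2 = el φ q.2.1 ^ q.2.2.2 ∨ el φ q.1.2 = (el φ q.2.1 ^ q.2.2.2)⁻¹) := by
    refine Enum.and (Enum.of_pred ?_) (Enum.and ?_ (Enum.and ?_ ?_))
    · refine PrimrecPred.not ?_
      have : PrimrecPred fun q : ((W n × List (W n)) × W n) × (W n × (ℕ × ℕ)) =>
          q.2.2.1 % q.2.2.2 = 0 :=
        Primrec.eq.comp (Primrec.nat_mod.comp (Primrec.fst.comp (Primrec.snd.comp Primrec.snd))
          (Primrec.snd.comp (Primrec.snd.comp Primrec.snd))) (Primrec.const 0)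
      exact this.of_eq fun q => (Nat.dvd_iff_mod_eq_zero).symm
    · exact h'.comp (g := fun q : ((W n × List (W n)) × W n) × (W n × (ℕ × ℕ)) => q.2.1)
        (Primrec.fst.comp Primrec.snd)
    · exact (pm_enum h).comp
        (g := fun q : ((W n × List (W n)) × W n) × (W n × (ℕ × ℕ)) =>
          (q.1.1.1, (q.2.1, q.2.2.1)))
        (Primrec.pair (Primrec.fst.comp (Primrec.fst.comp Primrec.fst))
          (Primrec.pair (Primrec.fst.comp Primrec.snd)
            (Primrec.fst.comp (Primrec.snd.comp Primrec.snd))))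
    · exact (pm_enum h).comp
        (g := fun q : ((W n × List (W n)) × W n) × (W n × (ℕ × ℕ)) =>
          (q.1.2, (q.2.1, q.2.2.2)))
        (Primrec.pair (Primrec.snd.comp Primrec.fst)
          (Primrec.pair (Primrec.fst.comp Primrec.snd)
            (Primrec.snd.comp (Primrec.snd.comp Primrec.snd))))
  have h3 := Enum.ex (p := fun (q : (W n × List (W n)) × W n) (r : W n × (ℕ × ℕ)) =>
      ¬ (r.2.2 ∣ r.2.1) ∧ ¬ el φ r.1 = 1 ∧
      (el φ q.1.1 = el φ r.1 ^ r.2.1 ∨ el φ q.1.1 = (el φ r.1 ^ r.2.1)⁻¹) ∧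
      (el φ q.2 = el φ r.1 ^ r.2.2 ∨ el φ q.2 = (el φ r.1 ^ r.2.2)⁻¹)) h2
  have h4 : Enum fun q : (W n × List (W n)) × W n =>
      ∀ u ∈ q.1.2, el φ u ∈ Subgroup.zpowers (el φ q.2) :=
    (allpow_enum h).comp (g := fun q : (W n × List (W n)) × W n => (q.1.2, q.2))
      (Primrec.pair (Primrec.snd.comp Primrec.fst) Primrec.snd)
  refine (Enum.ex (p := fun (q : W n × List (W n)) (c : W n) =>
      (∀ u ∈ q.2, el φ u ∈ Subgroup.zpowers (el φ c)) ∧
      (¬ Commute (el φ q.1) (el φ c) ∨ ∃ r : W n × (ℕ × ℕ),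
      ¬ (r.2.2 ∣ r.2.1) ∧ ¬ el φ r.1 = 1 ∧
      (el φ q.1 = el φ r.1 ^ r.2.1 ∨ el φ q.1 = (el φ r.1 ^ r.2.1)⁻¹) ∧
      (el φ c = el φ r.1 ^ r.2.2 ∨ el φ c = (el φ r.1 ^ r.2.2)⁻¹)))
      (h4.and (h1.or h3))).iff fun q => ?_
  constructor
  · intro hq
    have hne : sg φ q.2 ≠ ⊤ := fun e => hq (by rw [e]; trivial)
    obtain ⟨c, hc⟩ := sg_gen hcyc hφ hne
    refine ⟨c, ?_, ?_⟩
    · intro u hu
      rw [← hc]
      exact Subgroup.subset_closure ⟨u, hu, rfl⟩
    · by_cases hcm : Commute (el φ q.1) (el φ c)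
      · right
        have hK : sg φ [q.1, c] ≠ ⊤ := by
          intro htop
          apply noncomm hct
          intro a b
          have ha : a ∈ sg φ [q.1, c] := by rw [htop]; trivial
          have hb : b ∈ sg φ [q.1, c] := by rw [htop]; trivial
          refine closure_comm ?_ ha hb
          rintro _ ⟨v, hv, rfl⟩ _ ⟨u, hu, rfl⟩
          simp only [List.mem_cons, List.not_mem_nil, or_false] at hv hu
          rcases hv with rfl | rfl <;> rcases hu with rfl | rfl
          · rfl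
          · exact hcm
          · exact hcm.symm
          · rfl
        obtain ⟨d, hd⟩ := sg_gen hcyc hφ hK
        have hv : el φ q.1 ∈ Subgroup.zpowers (el φ d) := by
          rw [← hd]
          exact Subgroup.subset_closure ⟨_, by simp, rfl⟩
        have hcd : el φ c ∈ Subgroup.zpowers (el φ d) := by
          rw [← hd]
          exact Subgroup.subset_closure ⟨c, by simp, rfl⟩
        obtain ⟨a, ha⟩ := hv
        obtain ⟨b, hb⟩ := hcd
        have ha' : (el φ d) ^ a = el φ q.1 := ha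
        have hb' : (el φ d) ^ b = el φ c := hb
        have hpm : ∀ (x y : G) (k : ℤ), y ^ k = x → x = y ^ k.natAbs ∨ x = (y ^ k.natAbs)⁻¹ := by
          rintro x y k rfl
          rcases Int.natAbs_eq k with h5 | h5
          · left
            rw [← zpow_natCast, ← h5]
          · right
            rw [← zpow_natCast, ← zpow_neg, ← h5]
        refine ⟨(d, (a.natAbs, b.natAbs)), ?_, ?_, hpm _ _ _ ha', hpm _ _ _ hb'⟩
        · intro hdv
          obtain ⟨e, he⟩ := Int.natAbs_dvd_natAbs.1 hdv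
          apply hq
          rw [hc]
          refine ⟨e, ?_⟩
          change (el φ c) ^ e = el φ q.1
          rw [← hb', ← zpow_mul, ← he, ha']
        · intro hd1
          apply hq
          rw [← ha', hd1, one_zpow]
          exact Subgroup.one_mem _
      · exact Or.inl hcm
  · rintro ⟨c, hl, hor⟩ hmem
    obtain ⟨k, hk⟩ := sg_le hl hmem
    have hk' : (el φ c) ^ k = el φ q.1 := hk
    rcases hor with hnc | ⟨⟨d, a, b⟩, hdv, hd1, h5, h6⟩
    · apply hnc
      rw [← hk']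
      exact (Commute.refl (el φ c)).zpow_left k
    · change ¬ (b ∣ a) at hdv
      change ¬ el φ d = 1 at hd1
      change el φ q.1 = el φ d ^ a ∨ el φ q.1 = (el φ d ^ a)⁻¹ at h5
      change el φ c = el φ d ^ b ∨ el φ c = (el φ d ^ b)⁻¹ at h6
      have hinf : ¬ IsOfFinOrder (el φ d) := fun hf => hd1 (hfree _ hf)
      obtain ⟨a', ha1, ha2⟩ : ∃ a' : ℤ, a'.natAbs = a ∧ (el φ d) ^ a' = el φ q.1 := by
        rcases h5 with h5 | h5
        · exact ⟨a, Int.natAbs_natCast a, by rw [zpow_natCast, h5]⟩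
        · exact ⟨-a, by rw [Int.natAbs_neg, Int.natAbs_natCast], by
            rw [zpow_neg, zpow_natCast, h5]⟩
      obtain ⟨b', hb1, hb2⟩ : ∃ b' : ℤ, b'.natAbs = b ∧ (el φ d) ^ b' = el φ c := by
        rcases h6 with h6 | h6
        · exact ⟨b, Int.natAbs_natCast b, by rw [zpow_natCast, h6]⟩
        · exact ⟨-b, by rw [Int.natAbs_neg, Int.natAbs_natCast], by
            rw [zpow_neg, zpow_natCast, h6]⟩
      apply hdv
      rw [← ha1, ← hb1, Int.natAbs_dvd_natAbs]
      refine ⟨k, R673.MG.zpow_inj_of hinf ?_⟩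
      rw [zpow_mul, hb2, hk', ha2]

end free

section relations

/-- the centraliser of a noncentral element is cyclic -/
theorem exists_centralizer_gen (hcyc : ∀ H : Subgroup G, H ≠ ⊤ → IsCyclic H) {g t : G}
    (ht : g * t ≠ t * g) : ∃ c : G, ∀ x : G, x * g = g * x → ∃ k : ℤ, c ^ k = x := by
  have hne : Subgroup.centralizer {g} ≠ ⊤ := by
    intro e
    have h1 : t ∈ Subgroup.centralizer {g} := by rw [e]; trivial
    rw [Subgroup.mem_centralizer_iff] at h1
    exact ht (h1 g rfl)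
  obtain ⟨c, hc⟩ := (Subgroup.isCyclic_iff_exists_zpowers_eq_top _).1 (hcyc _ hne)
  refine ⟨c, fun x hx => ?_⟩
  have h2 : x ∈ Subgroup.centralizer {g} := by
    rw [Subgroup.mem_centralizer_iff]
    rintro _ rfl
    exact hx.symm
  rw [← hc] at h2
  exact h2

/-- An infinite finitely generated group all whose proper subgroups are cyclic is not complete. -/
theorem not_complete (hcyc : ∀ H : Subgroup G, H ≠ ⊤ → IsCyclic H)
    (hct : Subgroup.center G ≠ ⊤) :
    ¬ ∀ g : G, ∀ m : ℕ, 1 ≤ m → ∃ x : G, x ^ m = g := by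
  intro hdiv
  apply hct
  rw [eq_top_iff]
  intro g _
  by_contra hg
  rw [Subgroup.mem_center_iff] at hg
  push Not at hg
  obtain ⟨t, ht⟩ := hg
  obtain ⟨c, hc⟩ := exists_centralizer_gen hcyc ht.symm
  obtain ⟨k, hk⟩ := hc g rfl
  have hg1 : g ≠ 1 := by
    rintro rfl
    exact ht (by rw [mul_one, one_mul])
  by_cases hf : IsOfFinOrder c
  · obtain ⟨x, hx⟩ := hdiv g (orderOf c) hf.orderOf_pos
    have hxg : x * g = g * x := by
      rw [← hx]
      exact ((Commute.refl x).pow_right _).eq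
    obtain ⟨j, hj⟩ := hc x hxg
    apply hg1
    rw [← hx, ← hj, ← zpow_natCast, ← zpow_mul, mul_comm, zpow_mul, zpow_natCast,
      pow_orderOf_eq_one, one_zpow]
  · obtain ⟨x, hx⟩ := hdiv g (k.natAbs + 1) (Nat.succ_pos _)
    have hxg : x * g = g * x := by
      rw [← hx]
      exact ((Commute.refl x).pow_right _).eq
    obtain ⟨j, hj⟩ := hc x hxg
    have h1 : c ^ (j * ((k.natAbs + 1 : ℕ) : ℤ)) = c ^ k := by
      rw [zpow_mul, hj, zpow_natCast, hx, hk]
    have h2 := R673.MG.zpow_inj_of hf h1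
    have h3 : k ≠ 0 := by
      rintro rfl
      exact hg1 (by rw [← hk, zpow_zero])
    have h4 : k.natAbs + 1 ∣ k.natAbs := by
      have h5 : ((k.natAbs + 1 : ℕ) : ℤ) ∣ k := ⟨j, h2.symm.trans (mul_comm _ _)⟩
      exact Int.natCast_dvd.1 h5
    have h5 := Nat.le_of_dvd (Int.natAbs_pos.2 h3) h4
    omega

/-- A group all whose proper subgroups are cyclic and which has finitely many conjugacy classes is
a torsion group. -/
theorem torsion_of_finite [hG : Finite (ConjClasses G)]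
    (hcyc : ∀ H : Subgroup G, H ≠ ⊤ → IsCyclic H) (g : G) : IsOfFinOrder g := by
  by_contra hg
  obtain ⟨i, j, hij, he⟩ := Finite.exists_ne_map_eq_of_infinite
    (fun k : ℕ => ConjClasses.mk (g ^ (2 ^ k)))
  wlog hlt : i < j generalizing i j
  · exact this j i hij.symm he.symm (lt_of_le_of_ne (not_lt.1 hlt) hij.symm)
  rw [ConjClasses.mk_eq_mk_iff_isConj] at he
  obtain ⟨t, ht⟩ := isConj_iff.1 he
  obtain ⟨d, rfl⟩ : ∃ d, j = i + (d + 1) := ⟨j - i - 1, by omega⟩
  -- `t x t⁻¹ = x ^ k`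
  obtain ⟨x, hx⟩ : ∃ x : G, x = g ^ (2 ^ i) := ⟨_, rfl⟩
  have hxinf : ¬ IsOfFinOrder x := by
    rw [hx]
    intro hf
    rw [isOfFinOrder_pow] at hf
    rcases hf with hf | hf
    · exact hg hf
    · exact absurd hf (pow_ne_zero _ two_ne_zero)
  have hxt : t * x * t⁻¹ = x ^ (2 ^ (d + 1)) := by
    rw [hx, ht, ← pow_mul, ← pow_add]
  have hk2 : 2 ≤ 2 ^ (d + 1) := by
    rw [pow_succ]
    have := Nat.one_le_two_pow (n := d)
    omega
  generalize 2 ^ (d + 1) = k at hxt hk2
  have hnc : x * t ≠ t * x := by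
    intro hc
    have h1 : x ^ (k : ℤ) = x ^ (1 : ℤ) := by
      rw [zpow_natCast, ← hxt, ← hc, mul_inv_cancel_right, zpow_one]
    have := R673.MG.zpow_inj_of hxinf h1
    omega
  obtain ⟨c, hc⟩ := exists_centralizer_gen hcyc hnc
  have hpow : ∀ m : ℕ, t ^ m * x * (t ^ m)⁻¹ = x ^ (k ^ m) := by
    intro m
    induction m with
    | zero => simp
    | succ m ih =>
      have h1 : t ^ (m + 1) * x * (t ^ (m + 1))⁻¹ = t * (t ^ m * x * (t ^ m)⁻¹) * t⁻¹ := by
        rw [pow_succ']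
        group
      rw [h1, ih, ← conj_pow, hxt, ← pow_mul, pow_succ']
  have hroot : ∀ m : ℕ, ((t ^ m)⁻¹ * x * t ^ m) ^ (k ^ m) = x := by
    intro m
    have h1 : (t ^ m)⁻¹ * x * t ^ m = (t ^ m)⁻¹ * x * ((t ^ m)⁻¹)⁻¹ := by rw [inv_inv]
    rw [h1, conj_pow, ← hpow m]
    group
  obtain ⟨e, he'⟩ := hc x rfl
  have he0 : e ≠ 0 := by
    rintro rfl
    rw [zpow_zero] at he'
    exact hxinf (he' ▸ IsOfFinOrder.one)
  have hcinf : ¬ IsOfFinOrder c := by
    intro hf
    exact hxinf (he' ▸ hf.zpow)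
  obtain ⟨m, hm⟩ : ∃ m : ℕ, e.natAbs < k ^ m := by
    refine ⟨e.natAbs, ?_⟩
    exact Nat.lt_pow_self (by omega)
  have hcomm : ((t ^ m)⁻¹ * x * t ^ m) * x = x * ((t ^ m)⁻¹ * x * t ^ m) := by
    have h1 := (Commute.refl ((t ^ m)⁻¹ * x * t ^ m)).pow_right (k ^ m)
    rw [hroot] at h1
    exact h1.eq
  obtain ⟨j', hj'⟩ := hc _ hcomm
  have h1 : c ^ (j' * ((k ^ m : ℕ) : ℤ)) = c ^ e := by
    rw [zpow_mul, hj', zpow_natCast, hroot, he']
  have h2 := R673.MG.zpow_inj_of hcinf h1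
  have h3 : k ^ m ∣ e.natAbs := by
    have h5 : ((k ^ m : ℕ) : ℤ) ∣ e := ⟨j', h2.symm.trans (mul_comm _ _)⟩
    exact Int.natCast_dvd.1 h5
  have h5 := Nat.le_of_dvd (Int.natAbs_pos.2 he0) h3
  omega

/-- torsion and finitely many conjugacy classes give a bounded exponent -/
theorem exponent_of_torsion [hG : Finite (ConjClasses G)] (htor : ∀ g : G, IsOfFinOrder g) :
    ∃ n : ℕ, 1 ≤ n ∧ ∀ g : G, g ^ n = 1 := by
  classical
  have hfin := Fintype.ofFinite (ConjClasses G)
  refine ⟨∏ c : ConjClasses G, orderOf (Quotient.out c : G), ?_, ?_⟩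
  · exact Nat.one_le_iff_ne_zero.2 (Finset.prod_ne_zero_iff.2 fun c _ => (htor _).orderOf_pos.ne')
  · intro g
    have h1 : IsConj (Quotient.out (ConjClasses.mk g)) g := by
      rw [← ConjClasses.mk_eq_mk_iff_isConj]
      exact Quotient.out_eq (ConjClasses.mk g)
    have h2 : orderOf (Quotient.out (ConjClasses.mk g) : G) ∣
        ∏ c : ConjClasses G, orderOf (Quotient.out c : G) :=
      Finset.dvd_prod_of_mem (fun c : ConjClasses G => orderOf (Quotient.out c : G))
        (Finset.mem_univ _)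
    obtain ⟨y, hy⟩ : ∃ y : G, y = Quotient.out (ConjClasses.mk g) := ⟨_, rfl⟩
    rw [← hy] at h1 h2
    obtain ⟨t, ht⟩ := isConj_iff.1 h1
    have h3 := orderOf_dvd_iff_pow_eq_one.1 h2
    rw [← ht, conj_pow, h3]
    simp

end relations

end Pool.Agent.R387.MD
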